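import Pool.Agent.H26.OD.Nd
import Pool.Agent.H88.RE.Ic

/-!
Project MP_78d38b_OD: special primes which split completely in `N`, with prescribed symbols at classes of `L` and of `K`.
-/

set_option autoImplicit false
set_option linter.unusedSectionVars false
open scoped Classical

open WithZero NumberField IsDedekindDomain H38RT
open H38T1 (SC sc scu rep eo la si OddP)
open H76PP (Cub LC ev scm dn)
open H88OD H26OD

namespace H88ZC

variable {K F L : Type} [Field K] [NumberField K] [Field F] [NumberField F] [Field L]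
  [NumberField L] [Algebra K F] [Algebra F L] {a b : K} {θ : L}

private theorem Nr_two (x : ZMod 2) : x = 0 ∨ x = 1 := by
  revert x
  decide

private theorem Nr_2 {M : Type} [Field M] (x : SC M) : x + x = 0 := by
  have h := H38T1.SC.two_smul x
  rwa [two_nsmul] at h

/-- A functional on `B` transports along a homomorphism if it vanishes on the kernel. -/
theorem Nr_tr {M M' : Type} [Field M] [Field M'] (j : SC M →+ SC M')
    (B : AddSubgroup (SC M)) (φ' : SC M →+ ZMod 2) (hj : ∀ x ∈ B, j x = 0 → φ' x = 0) :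
    ∃ φN : SC M' →+ ZMod 2, ∀ x ∈ B, φN (j x) = φ' x := by
  obtain ⟨f, hf⟩ : ∃ f : B →+ SC M', f = j.comp B.subtype := ⟨_, rfl⟩
  have hsurj : Function.Surjective f.rangeRestrict := f.rangeRestrict_surjective
  have hker : f.rangeRestrict.ker ≤ (φ'.comp B.subtype).ker := by
    intro x hx
    rw [AddMonoidHom.mem_ker] at hx ⊢
    have h1 : f x = 0 := congrArg Subtype.val hx
    rw [hf] at h1
    exact hj x x.2 h1
  obtain ⟨φN, h⟩ := ext_fun (fun x : SC M' => Nr_2 x) f.range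
    (AddMonoidHom.liftOfSurjective f.rangeRestrict hsurj ⟨φ'.comp B.subtype, hker⟩)
  refine ⟨φN, fun x hx => ?_⟩
  have h1 := h (f.rangeRestrict ⟨x, hx⟩)
  have h2 : ((f.rangeRestrict ⟨x, hx⟩ : f.range) : SC M') = j x := by
    rw [hf]
    rfl
  rw [h2] at h1
  rw [h1]
  have h3 := AddMonoidHom.liftOfRightInverse_comp_apply f.rangeRestrict
    (Function.surjInv hsurj) (Function.rightInverse_surjInv hsurj) ⟨φ'.comp B.subtype, hker⟩
    ⟨x, hx⟩
  exact h3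

private theorem Nr_odd {M : Type} [Field M] [NumberField M] {w : HeightOneSpectrum (𝓞 M)}
    (hw2 : (2 : 𝓞 M) ∉ w.asIdeal) : OddP w := by
  have h3 : w.valuation M ((2 : 𝓞 M) : M) = 1 := w.valuation_eq_one_iff_notMem.mpr hw2
  have h4 : ((2 : 𝓞 M) : M) = 2 := map_ofNat _ 2
  rw [h4] at h3
  exact h3

/-- Equal symbols at a place of degree one. -/
private theorem Nr_la {M M' K' : Type} [Field M] [NumberField M] [Field M'] [NumberField M']
    [Field K'] [NumberField K'] [Algebra M M'] [Algebra K' M] [Algebra K' M'] [IsScalarTower K' M M']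
    {T : HeightOneSpectrum (𝓞 M')} (hT2 : (2 : 𝓞 M') ∉ T.asIdeal)
    (hdeg : ∀ x : 𝓞 M', ∃ n : 𝓞 K', algebraMap (𝓞 K') (𝓞 M') n - x ∈ T.asIdeal) {d : 𝓞 M}
    (hd : algebraMap (𝓞 M) (𝓞 M') d ∉ T.asIdeal) :
    la (dn M T) (sc (d : M)) = la T (sc ((algebraMap (𝓞 M) (𝓞 M') d : 𝓞 M') : M')) := by
  have hw2 : (2 : 𝓞 M) ∉ (dn M T).asIdeal := by
    intro h
    apply hT2
    have h1 : algebraMap (𝓞 M) (𝓞 M') 2 ∈ T.asIdeal := h
    rwa [map_ofNat] at h1
  have hdw : d ∉ (dn M T).asIdeal := hd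
  have h1 := H30MQ.la_iff (Nr_odd hw2) hdw
  have h2 := H30MQ.la_iff (Nr_odd hT2) hd
  have h3 : la (dn M T) (sc (d : M)) = 0 ↔
      la T (sc ((algebraMap (𝓞 M) (𝓞 M') d : 𝓞 M') : M')) = 0 := by
    rw [h1, h2]
    constructor
    · rintro ⟨y, hy⟩
      refine ⟨algebraMap (𝓞 M) (𝓞 M') y, ?_⟩
      rw [← map_pow, ← map_sub]
      exact hy
    · rintro ⟨y, hy⟩
      obtain ⟨n, hn⟩ := hdeg y
      refine ⟨algebraMap (𝓞 K') (𝓞 M) n, ?_⟩
      change algebraMap (𝓞 M) (𝓞 M') (d - algebraMap (𝓞 K') (𝓞 M) n ^ 2) ∈ T.asIdeal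
      rw [map_sub, map_pow, ← IsScalarTower.algebraMap_apply (𝓞 K') (𝓞 M) (𝓞 M') n]
      have e : algebraMap (𝓞 M) (𝓞 M') d - algebraMap (𝓞 K') (𝓞 M') n ^ 2 =
          (algebraMap (𝓞 M) (𝓞 M') d - y ^ 2) -
            (algebraMap (𝓞 K') (𝓞 M') n - y) * (algebraMap (𝓞 K') (𝓞 M') n + y) := by
        ring
      rw [e]
      exact T.asIdeal.sub_mem hy (T.asIdeal.mul_mem_right _ hn)
  rcases Nr_two (la (dn M T) (sc (d : M))) with h4 | h4
  · rw [h4, h3.1 h4]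
  · rcases Nr_two (la T (sc ((algebraMap (𝓞 M) (𝓞 M') d : 𝓞 M') : M'))) with h5 | h5
    · rw [h3.2 h5] at h4
      exact absurd h4.symm one_ne_zero
    · rw [h4, h5]

/-- Places above the same place are conjugate. -/
private theorem Nr_conj {N : Type} [Field N] [NumberField N] [Algebra K N] [IsGalois K N]
    {W W' : HeightOneSpectrum (𝓞 N)} (h : dn K W' = dn K W) :
    ∃ g : N ≃ₐ[K] N, ∀ x : 𝓞 N, x ∈ W'.asIdeal ↔ g • x ∈ W.asIdeal := by
  have hp : (dn K W).asIdeal = W.asIdeal.comap (algebraMap (𝓞 K) (𝓞 N)) := rfl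
  have hp' : (dn K W).asIdeal = W'.asIdeal.comap (algebraMap (𝓞 K) (𝓞 N)) := by
    rw [← h]
    rfl
  have i1 : W.asIdeal.IsPrime := W.isPrime
  have i2 : W'.asIdeal.IsPrime := W'.isPrime
  have i3 : W.asIdeal.LiesOver (dn K W).asIdeal := ⟨hp⟩
  have i4 : W'.asIdeal.LiesOver (dn K W).asIdeal := ⟨hp'⟩
  obtain ⟨g, hg⟩ := Ideal.exists_smul_eq_of_isGaloisGroup (dn K W).asIdeal W'.asIdeal W.asIdeal
    (N ≃ₐ[K] N)
  refine ⟨g, fun x => ?_⟩
  rw [← hg]
  exact Ideal.smul_mem_pointwise_smul_iff.symm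

private theorem Nr_smul {N : Type} [Field N] [NumberField N] [Algebra K N] (g : N ≃ₐ[K] N)
    (x : 𝓞 N) : ((g • x : 𝓞 N) : N) = g (x : N) := rfl

/-- **Special primes split in `N`** with symbols given by a functional on the square classes of `L N`. -/
theorem rich_gen (S : Ext K F L a b θ) {N LN : Type} [Field N] [NumberField N] [Algebra K N]
    [Algebra F N] [IsScalarTower K F N] [IsGalois K N] [Field LN] [NumberField LN] [Algebra N LN]
    [Algebra L LN] (U : UpN S N LN) (φN : SC LN →+ ZMod 2)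
    (hN : φN (scm (algebraMap L LN : L →* LN)
      (sc (algebraMap F L (algebraMap K F (-(4 * a ^ 3 + 27 * b ^ 2)))))) = 1)
    (Sg : Finset (HeightOneSpectrum (𝓞 K))) {Y : Set (SC L)} (hY : Y.Finite)
    {A₀ : Set (HeightOneSpectrum (𝓞 K))} (hA₀ : A₀.Finite) :
    ∃ P : Sp S Sg, P.q ∈ Zs K N ∧ P.q ∉ A₀ ∧
      ∀ c ∈ Y, la P.t1 c = φN (scm (algebraMap L LN : L →* LN) c) := by
  let _ : Algebra K LN := ((algebraMap N LN).comp (algebraMap K N)).toAlgebra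
  have hTN : IsScalarTower K N LN := IsScalarTower.of_algebraMap_eq fun _ => rfl
  let _ : Algebra K L := ((algebraMap F L).comp (algebraMap K F)).toAlgebra
  have hTF : IsScalarTower K F L := IsScalarTower.of_algebraMap_eq fun _ => rfl
  have hTL : IsScalarTower K L LN := IsScalarTower.of_algebraMap_eq fun x => by
    change algebraMap N LN (algebraMap K N x) = algebraMap L LN (algebraMap F L (algebraMap K F x))
    rw [U.tower, ← IsScalarTower.algebraMap_apply K F N x]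
  obtain ⟨ΔL, hΔL⟩ : ∃ z : L, z = algebraMap F L (algebraMap K F (-(4 * a ^ 3 + 27 * b ^ 2))) :=
    ⟨_, rfl⟩
  obtain ⟨j, hj⟩ : ∃ j : SC L →+ SC LN, j = scm (algebraMap L LN : L →* LN) := ⟨_, rfl⟩
  have hN2 : φN (j (sc ΔL)) = 1 := by
    rw [hj, hΔL]
    exact hN
  -- the elements
  choose r hr0 hr1 using (fun c : SC L => H76OD.exists_irep c)
  obtain ⟨a₀, ha₀⟩ := H76OD.Lt_int S.ha
  obtain ⟨b₀, hb₀⟩ := H76OD.Lt_int S.hb
  obtain ⟨δ, hδ⟩ : ∃ δ : 𝓞 L, δ = algebraMap (𝓞 F) (𝓞 L)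
      (algebraMap (𝓞 K) (𝓞 F) (-(4 * a₀ ^ 3 + 27 * b₀ ^ 2))) := ⟨_, rfl⟩
  have hδL : (δ : L) = ΔL := by
    have e1 : ((-(4 * a₀ ^ 3 + 27 * b₀ ^ 2) : 𝓞 K) : K) = -(4 * a ^ 3 + 27 * b ^ 2) := by
      change algebraMap (𝓞 K) K (-(4 * a₀ ^ 3 + 27 * b₀ ^ 2)) = _
      simp only [map_neg, map_add, map_mul, map_pow, map_ofNat]
      rw [show algebraMap (𝓞 K) K a₀ = a from ha₀, show algebraMap (𝓞 K) K b₀ = b from hb₀]
    rw [hδ, hΔL, ← e1]
    rfl
  have hΔ0 : ΔL ≠ 0 := by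
    rw [hΔL]
    exact (map_ne_zero _).2 ((map_ne_zero _).2 (neg_ne_zero.2 S.dne))
  have hδ0 : δ ≠ 0 := by
    intro h
    apply hΔ0
    rw [← hδL, h]
    rfl
  have hinj : Function.Injective (algebraMap (𝓞 L) (𝓞 LN)) := by
    intro x y hxy
    apply RingOfIntegers.coe_injective
    apply (algebraMap L LN).injective
    exact congrArg (fun z : 𝓞 LN => (z : LN)) hxy
  have hi0 : ∀ x : 𝓞 L, x ≠ 0 → algebraMap (𝓞 L) (𝓞 LN) x ≠ 0 := by
    intro x hx h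
    apply hx
    apply hinj
    rw [h, map_zero]
  have hjsc : ∀ x : 𝓞 L, x ≠ 0 →
      sc ((algebraMap (𝓞 L) (𝓞 LN) x : 𝓞 LN) : LN) = j (sc (x : L)) := by
    intro x hx
    have hx0 : (x : L) ≠ 0 := by
      intro h
      apply hx
      apply RingOfIntegers.coe_injective
      exact h.trans (map_zero _).symm
    rw [hj, H76PP.scm_sc _ hx0]
    rfl
  obtain ⟨D, hD⟩ : ∃ D : Finset (𝓞 LN), D = insert (algebraMap (𝓞 L) (𝓞 LN) δ)
      (hY.toFinset.image fun c => algebraMap (𝓞 L) (𝓞 LN) (r c)) := ⟨_, rfl⟩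
  have hD0 : ∀ d ∈ D, d ≠ 0 := by
    intro d hd
    rw [hD, Finset.mem_insert, Finset.mem_image] at hd
    rcases hd with rfl | ⟨c, -, rfl⟩
    · exact hi0 _ hδ0
    · exact hi0 _ (hr0 c)
  -- the bad places
  obtain ⟨Bd, hBd, hcore⟩ := exists_core S
  have hmove : ∀ g : N ≃ₐ[K] N, g ≠ 1 → ∃ x : 𝓞 N, g • x - x ≠ 0 := by
    intro g hg
    by_contra hcon
    push Not at hcon
    apply hg
    apply AlgEquiv.ext
    intro y
    obtain ⟨α, β, -, hxy⟩ := IsFractionRing.div_surjective (A := 𝓞 N) y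
    have h1 : ∀ z : 𝓞 N, g (z : N) = (z : N) := by
      intro z
      have h2 := sub_eq_zero.1 (hcon z)
      have h3 := congrArg (fun t : 𝓞 N => (t : N)) h2
      exact h3
    change g y = y
    rw [← hxy, map_div₀]
    exact congrArg₂ (· / ·) (h1 α) (h1 β)
  choose! X hX using hmove
  have hfinK : ∀ x : 𝓞 N, x ≠ 0 → {v : HeightOneSpectrum (𝓞 K) |
      ∃ w : HeightOneSpectrum (𝓞 N), dn K w = v ∧ x ∈ w.asIdeal}.Finite := by
    intro x hx
    refine ((H30MQ.fin_mem hx).image (dn K)).subset ?_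
    rintro v ⟨w, rfl, hw⟩
    exact ⟨w, hw, rfl⟩
  have hbad : (((A₀ ∪ (Sg : Set (HeightOneSpectrum (𝓞 K)))) ∪ Bd) ∪
      ⋃ g : {g : N ≃ₐ[K] N // g ≠ 1}, {v : HeightOneSpectrum (𝓞 K) |
        ∃ w : HeightOneSpectrum (𝓞 N), dn K w = v ∧ g.1 • X g.1 - X g.1 ∈ w.asIdeal}).Finite := by
    refine ((hA₀.union Sg.finite_toSet).union hBd).union ?_
    exact Set.finite_iUnion fun g => hfinK _ (hX g.1 g.2)
  obtain ⟨T, hTB, hT2, hdeg, hla⟩ := H76OD.cheb_N (K := K) D hD0 φN _ hbad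
  have e1 : ∀ x : 𝓞 K, algebraMap (𝓞 L) (𝓞 LN) (algebraMap (𝓞 F) (𝓞 L)
      (algebraMap (𝓞 K) (𝓞 F) x)) = algebraMap (𝓞 K) (𝓞 LN) x := by
    intro x
    apply RingOfIntegers.coe_injective
    exact (IsScalarTower.algebraMap_apply K L LN (x : K)).symm
  have e2 : ∀ x : 𝓞 K, algebraMap (𝓞 N) (𝓞 LN) (algebraMap (𝓞 K) (𝓞 N) x) =
      algebraMap (𝓞 K) (𝓞 LN) x := by
    intro x
    apply RingOfIntegers.coe_injective
    rfl
  obtain ⟨w, hw⟩ : ∃ w : HeightOneSpectrum (𝓞 L), w = dn L T := ⟨_, rfl⟩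
  have hKw : dn K (dn F w) = dn K T := by
    apply HeightOneSpectrum.ext
    ext x
    rw [hw]
    change algebraMap (𝓞 L) (𝓞 LN) (algebraMap (𝓞 F) (𝓞 L) (algebraMap (𝓞 K) (𝓞 F) x)) ∈
      T.asIdeal ↔ algebraMap (𝓞 K) (𝓞 LN) x ∈ T.asIdeal
    rw [e1]
  obtain ⟨W₀, hW₀⟩ : ∃ W₀ : HeightOneSpectrum (𝓞 N), W₀ = dn N T := ⟨_, rfl⟩
  have hKW : dn K W₀ = dn K T := by
    apply HeightOneSpectrum.ext
    ext x
    rw [hW₀]
    change algebraMap (𝓞 N) (𝓞 LN) (algebraMap (𝓞 K) (𝓞 N) x) ∈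
      T.asIdeal ↔ algebraMap (𝓞 K) (𝓞 LN) x ∈ T.asIdeal
    rw [e2]
  have hw2 : (2 : 𝓞 L) ∉ w.asIdeal := by
    intro h
    apply hT2
    rw [hw] at h
    have h1 : algebraMap (𝓞 L) (𝓞 LN) 2 ∈ T.asIdeal := h
    rwa [map_ofNat] at h1
  have hlaT : ∀ d : 𝓞 L, d ≠ 0 → algebraMap (𝓞 L) (𝓞 LN) d ∈ D →
      d ∉ w.asIdeal ∧ la w (sc (d : L)) = φN (j (sc (d : L))) := by
    intro d hd0 hd
    obtain ⟨h1, h2⟩ := hla _ hd
    refine ⟨?_, ?_⟩
    · rw [hw]
      exact h1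
    · rw [hw, Nr_la (K' := K) hT2 hdeg h1, h2, hjsc d hd0]
  have hδD : algebraMap (𝓞 L) (𝓞 LN) δ ∈ D := by
    rw [hD]
    exact Finset.mem_insert_self _ _
  obtain ⟨hδw, hδla⟩ := hlaT δ hδ0 hδD
  rw [hδL, hN2] at hδla
  have hdegw : ∀ x : 𝓞 L, ∃ n : 𝓞 K,
      algebraMap (𝓞 F) (𝓞 L) (algebraMap (𝓞 K) (𝓞 F) n) - x ∈ w.asIdeal := by
    intro x
    obtain ⟨n, hn⟩ := hdeg (algebraMap (𝓞 L) (𝓞 LN) x)
    refine ⟨n, ?_⟩
    rw [hw]
    change algebraMap (𝓞 L) (𝓞 LN)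
      (algebraMap (𝓞 F) (𝓞 L) (algebraMap (𝓞 K) (𝓞 F) n) - x) ∈ T.asIdeal
    rw [map_sub, e1]
    exact hn
  have hB1 : dn K (dn F w) ∉ Bd := by
    rw [hKw]
    exact fun h => hTB (Or.inl (Or.inr h))
  have hB2 : dn K (dn F w) ∉ Sg := by
    rw [hKw]
    exact fun h => hTB (Or.inl (Or.inl (Or.inr h)))
  obtain ⟨P, hP1, hP2⟩ := hcore Sg w hB1 hB2 hw2 hdegw δ (hδL.trans hΔL) hδw (by
    rw [hδL]
    exact hδla)
  rw [hKw] at hP2
  refine ⟨P, ?_, ?_, fun c hc => ?_⟩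
  · intro W hW g hg
    rw [hP2, ← hKW] at hW
    obtain ⟨k, hk⟩ := Nr_conj hW
    have hgW : ∀ x : 𝓞 N, x ∈ W.asIdeal ↔ g⁻¹ • x ∈ W.asIdeal := by
      intro x
      have h1 : x ∈ (gq g • W).asIdeal ↔ H38T1.gO (gq g)⁻¹ x ∈ W.asIdeal := Iff.rfl
      rw [hg] at h1
      have h2 : H38T1.gO (gq g)⁻¹ x = g⁻¹ • x := by
        apply RingOfIntegers.coe_injective
        rfl
      rw [h2] at h1
      exact h1
    have hst : ∀ y : 𝓞 N, y ∈ W₀.asIdeal ↔ (k * g⁻¹ * k⁻¹) • y ∈ W₀.asIdeal := by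
      intro y
      have h1 := hk (k⁻¹ • y)
      rw [smul_inv_smul] at h1
      rw [← h1, hgW, hk, smul_smul, smul_smul]
    have hkk : k * g⁻¹ * k⁻¹ = 1 := by
      by_contra hne
      obtain ⟨s, hs⟩ : ∃ s : N ≃ₐ[K] N, s = k * g⁻¹ * k⁻¹ := ⟨_, rfl⟩
      rw [← hs] at hne hst
      obtain ⟨m, hm⟩ := hdeg (algebraMap (𝓞 N) (𝓞 LN) (X s))
      have hm1 : algebraMap (𝓞 K) (𝓞 N) m - X s ∈ W₀.asIdeal := by
        rw [hW₀]
        change algebraMap (𝓞 N) (𝓞 LN) (algebraMap (𝓞 K) (𝓞 N) m - X s) ∈ T.asIdeal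
        rw [map_sub, e2]
        exact hm
      have hm2 := (hst _).1 hm1
      have h5 : s • algebraMap (𝓞 K) (𝓞 N) m = algebraMap (𝓞 K) (𝓞 N) m := by
        apply RingOfIntegers.coe_injective
        exact s.commutes (m : K)
      rw [smul_sub, h5] at hm2
      have h6 : s • X s - X s ∈ W₀.asIdeal := by
        have h7 : s • X s - X s = (algebraMap (𝓞 K) (𝓞 N) m - X s) -
            (algebraMap (𝓞 K) (𝓞 N) m - s • X s) := by
          ring
        rw [h7]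
        exact W₀.asIdeal.sub_mem hm1 hm2
      apply hTB
      right
      exact Set.mem_iUnion.2 ⟨⟨s, hne⟩, W₀, hKW, h6⟩
    have h8 : g⁻¹ = 1 := by
      have h9 : g⁻¹ = k⁻¹ * (k * g⁻¹ * k⁻¹) * k := by group
      rw [h9, hkk]
      group
    exact inv_eq_one.1 h8
  · rw [hP2]
    exact fun h => hTB (Or.inl (Or.inl (Or.inl h)))
  · have h3 : algebraMap (𝓞 L) (𝓞 LN) (r c) ∈ D := by
      rw [hD, Finset.mem_insert, Finset.mem_image]
      exact Or.inr ⟨c, hY.mem_toFinset.2 hc, rfl⟩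
    have h4 := (hlaT _ (hr0 c) h3).2
    rw [hr1, hj] at h4
    rw [hP1]
    exact h4


section Base

variable {K L : Type} [Field K] [NumberField K] [Field L]
  [NumberField L] [Algebra K L] {a b : K} {θ : L}

/-- **Special primes split in `N`** with symbols prescribed on a finite group of classes of norm zero and at finitely many
classes of the base field. -/
theorem exists_spKZ (S : Ext K K L a b θ) (N : Type) [Field N] [NumberField N] [Algebra K N]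
    [IsGalois K N] (hsq : ¬ IsSquare (algebraMap K N (-(4 * a ^ 3 + 27 * b ^ 2)))) (Sg X : Finset (HeightOneSpectrum (𝓞 K)))
    (W : AddSubgroup (SC L)) (hfin : Finite W) (hW : ∀ c ∈ W, c ∈ H30ZO.HH K L)
    (φ : SC L →+ ZMod 2) {B : Set (SC K)} (hB : B.Finite) (χ : SC K →+ ZMod 2)
    (hχ : χ (sc (-(4 * a ^ 3 + 27 * b ^ 2))) = 1)
    (hχN : ∀ β : SC K, scm (algebraMap K N : K →* N) β = 0 → χ β = 0) :
    ∃ P : Sp S Sg, P.q ∈ Zs K N ∧ P.q ∉ X ∧ (∀ c ∈ W, P.tr c = 0 ∧ P.fl c = S.el φ c) ∧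
      ∀ β ∈ B, la P.q β = χ β := by
  obtain ⟨ι, hι⟩ : ∃ ι : SC K →+ SC L, ι = scm (algebraMap K L : K →* L) := ⟨_, rfl⟩
  obtain ⟨Nm, hN⟩ : ∃ Nm : SC L →+ SC K, Nm = scm (Algebra.norm K : L →* K) := ⟨_, rfl⟩
  have hιsc : ∀ x : K, x ≠ 0 → ι (sc x) = sc (algebraMap K L x) := by
    intro x hx
    rw [hι, H76PP.scm_sc _ hx]
    rfl
  have hNι : ∀ β : SC K, Nm (ι β) = β := by
    intro β
    obtain ⟨x, hx, rfl⟩ := H38T1.sc_surj β
    have hx' : algebraMap K L x ≠ 0 := (map_ne_zero _).2 hx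
    rw [hιsc x hx, hN, H76PP.scm_sc _ hx']
    have h1 : Algebra.norm K (algebraMap K L x) = x * x ^ 2 := by
      rw [Algebra.norm_algebraMap, S.cub.finrank]
      ring
    rw [h1, H38T1.sc_mul hx (pow_ne_zero 2 hx), H54MT.sc_sq hx, add_zero]
  obtain ⟨ψ, hψdef⟩ : ∃ ψ : SC L →+ ZMod 2, ψ = φ + φ.comp (ι.comp Nm) + χ.comp Nm := ⟨_, rfl⟩
  have hψap : ∀ c, ψ c = φ c + φ (ι (Nm c)) + χ (Nm c) := by
    intro c
    rw [hψdef]
    rfl
  have hψ0 : ∀ c ∈ H30ZO.HH K L, ψ c = φ c := by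
    intro c hc
    have h1 : scm (Algebra.norm K : L →* K) c = 0 := hc
    have h2 : Nm c = 0 := by rw [hN]; exact h1
    rw [hψap, h2, map_zero, map_zero, map_zero, add_zero, add_zero]
  have hψ1 : ∀ β : SC K, ψ (ι β) = χ β := by
    intro β
    rw [hψap, hNι, CharTwo.add_self_eq_zero, zero_add]
  have hne : -(4 * a ^ 3 + 27 * b ^ 2) ≠ 0 := neg_ne_zero.2 S.dne
  have hψ2 : ψ (sc (algebraMap K L (algebraMap K K (-(4 * a ^ 3 + 27 * b ^ 2))))) = 1 := by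
    have h1 : algebraMap K K (-(4 * a ^ 3 + 27 * b ^ 2)) = -(4 * a ^ 3 + 27 * b ^ 2) := rfl
    rw [h1, ← hιsc _ hne, hψ1, hχ]
  have hWf : (W : Set (SC L)).Finite := Set.toFinite _
  have hA : ((((X : Set (HeightOneSpectrum (𝓞 K))) ∪
      {v : HeightOneSpectrum (𝓞 K) | (2 : 𝓞 K) ∈ v.asIdeal}) ∪
      ⋃ c ∈ (W : Set (SC L)),
        (fun w : HeightOneSpectrum (𝓞 L) => dn K (dn K w)) '' {w | eo w c ≠ 0}) ∪
      ⋃ β ∈ B, {w : HeightOneSpectrum (𝓞 K) | eo w β ≠ 0}).Finite :=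
    ((X.finite_toSet.union (H30MQ.fin_mem (by norm_num))).union
      (hWf.biUnion fun c _ => (fin_supp c).image _)).union (hB.biUnion fun β _ => fin_supp β)
  obtain ⟨LN, _, _, _, _, U⟩ := exists_up S N hsq
  obtain ⟨j, hj⟩ : ∃ j : SC L →+ SC LN, j = scm (algebraMap L LN : L →* LN) := ⟨_, rfl⟩
  have hjι : ∀ β : SC K, scm (algebraMap K N : K →* N) β = 0 → j (ι β) = 0 := by
    intro β hβ
    obtain ⟨x, hx, rfl⟩ := H38T1.sc_surj β
    have hxN : algebraMap K N x ≠ 0 := (map_ne_zero _).2 hx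
    have hxL : algebraMap K L x ≠ 0 := (map_ne_zero _).2 hx
    rw [H76PP.scm_sc _ hx] at hβ
    have h1 : IsSquare (algebraMap K N x) := (H38T1.sc_eq_zero hxN).1 hβ
    rw [hιsc x hx, hj, H76PP.scm_sc _ hxL]
    have h2 : algebraMap L LN (algebraMap K L x) = algebraMap N LN (algebraMap K N x) := U.tower x
    have h3 : IsSquare (algebraMap L LN (algebraMap K L x)) := by
      rw [h2]
      exact h1.map (algebraMap N LN)
    change sc (algebraMap L LN (algebraMap K L x)) = 0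
    have hxLN : algebraMap L LN (algebraMap K L x) ≠ 0 := (map_ne_zero _).2 hxL
    exact (H38T1.sc_eq_zero hxLN).2 h3
  have hjN : ∀ x : SC L, j x = 0 → scm (algebraMap K N : K →* N) (Nm x) = 0 := by
    intro x hjx
    obtain ⟨y, hy, rfl⟩ := H38T1.sc_surj x
    have hy' : algebraMap L LN y ≠ 0 := (map_ne_zero _).2 hy
    rw [hj, H76PP.scm_sc _ hy] at hjx
    have h1 : IsSquare (algebraMap L LN y) := (H38T1.sc_eq_zero hy').1 hjx
    have h2 : IsSquare (algebraMap K N (Algebra.norm K y)) := by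
      have h3 := h1.map (Algebra.norm N : LN →* N)
      rw [U.norm] at h3
      exact h3
    have hfin' : Module.Finite K L := Module.Finite.of_basis S.cub.basis
    have hn : Algebra.norm K y ≠ 0 := Algebra.norm_ne_zero_iff.2 hy
    rw [hN, H76PP.scm_sc _ hy, H76PP.scm_sc _ hn]
    change sc (algebraMap K N (Algebra.norm K y)) = 0
    have hnN : algebraMap K N (Algebra.norm K y) ≠ 0 := (map_ne_zero _).2 hn
    exact (H38T1.sc_eq_zero hnN).2 h2
  obtain ⟨φN, hφN⟩ := Nr_tr j ⊤ ψ (by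
    intro x _ hjx
    have h1 := hjN x hjx
    have h2 : x + ι (Nm x) ∈ H30ZO.HH K L := by
      have h3 : Nm (x + ι (Nm x)) = 0 := by
        rw [map_add, hNι]
        have h := H38T1.SC.two_smul (Nm x)
        rwa [two_nsmul] at h
      have h3' : scm (Algebra.norm K : L →* K) (x + ι (Nm x)) = 0 := by
        rw [← hN]
        exact h3
      exact h3'
    have h4 : x + ι (Nm x) = 0 := by
      refine U.inj h2 ?_
      have h5 : j (x + ι (Nm x)) = 0 := by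
        rw [map_add, hjx, hjι _ h1, add_zero]
      rw [hj] at h5
      exact h5
    rw [hψap, hχN _ h1, add_zero, ← map_add, h4, map_zero])
  obtain ⟨P, hPZ, hP, hla'⟩ := rich_gen S U φN (by
    have h := hφN _ (AddSubgroup.mem_top (sc (algebraMap K L (algebraMap K K
      (-(4 * a ^ 3 + 27 * b ^ 2))))))
    rw [hψ2, hj] at h
    exact h) Sg (Y := (W : Set (SC L)) ∪ ι '' B) (hWf.union (hB.image _)) hA
  have hla : ∀ c ∈ (W : Set (SC L)) ∪ ι '' B, la P.t1 c = ψ c := by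
    intro c hc
    rw [hla' c hc, ← hφN c (AddSubgroup.mem_top c), hj]
  have hPX : P.q ∉ X := fun h => hP (Or.inl (Or.inl (Or.inl h)))
  have hP2 : (2 : 𝓞 K) ∉ P.q.asIdeal := fun h => hP (Or.inl (Or.inl (Or.inr h)))
  have hPodd : OddP P.q := by
    have h3 : P.q.valuation K ((2 : 𝓞 K) : K) = 1 := P.q.valuation_eq_one_iff_notMem.mpr hP2
    have h4 : ((2 : 𝓞 K) : K) = 2 := map_ofNat _ 2
    rw [h4] at h3
    exact h3
  have hPW : ∀ c ∈ W, eo P.t2 c = 0 := by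
    intro c hc
    by_contra h
    refine hP (Or.inl (Or.inr (Set.mem_biUnion (show c ∈ (W : Set (SC L)) from hc)
      ⟨P.t2, h, ?_⟩)))
    change dn K (dn K P.t2) = dn K P.v
    rw [P.tw.dn2]
  have hPB : ∀ β ∈ B, eo P.q β = 0 := by
    intro β hβ
    by_contra h
    exact hP (Or.inr (Set.mem_biUnion hβ h))
  have hqv : P.q = P.v := dn_self P.v
  have hg1 : ∀ (g : K ≃ₐ[K] K) (c : SC L), S.ρ g⁻¹ • c = c := by
    intro g c
    have h1 : g⁻¹ = 1 := Subsingleton.elim _ _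
    rw [h1, map_one, one_smul]
  refine ⟨P, hPZ, hPX, fun c hc => ⟨?_, ?_⟩, fun β hβ => ?_⟩
  · refine rg_ext fun g => ?_
    change eo P.t2 (S.ρ g⁻¹ • c) = 0
    rw [hg1]
    exact hPW c hc
  · refine rg_ext fun g => ?_
    change la P.t1 (S.ρ g⁻¹ • c) + P.nu * eo P.t2 (S.ρ g⁻¹ • c) = φ (S.ρ g⁻¹ • c)
    rw [hg1, hPW c hc, mul_zero, add_zero, hla c (Or.inl hc), hψ0 c (hW c hc)]
  · obtain ⟨x, hx, rfl⟩ := H38T1.sc_surj β
    have h1 := hla _ (Or.inr ⟨_, hβ, rfl⟩)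
    rw [hψ1, hιsc x hx] at h1
    have h2 := hPB _ hβ
    rw [hqv] at h2 hPodd
    rw [hqv, ← h1]
    exact (H76MQ.gg_la1 hPodd P.tw.toTwG hx h2).symm

end Base

end H88ZC
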