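import Pool.Agent.H88.RE.Ig
import Pool.Agent.H88.ZC.Nr

/-!
Project MP_78d38b_OD: a real place where the cubic polynomial has one real root, with primes split in `N` (version of
Pool/Agent/H88/RE/Ig.lean).
-/

set_option autoImplicit false
set_option linter.unusedSectionVars false
open scoped Classical

open WithZero NumberField IsDedekindDomain H38RT
open H38T1 (SC sc scu rep eo la si OddP)
open H76PP (Cub LC ev scm dn)
open H88OD
open H26OD (Zs)

namespace H88ZC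

variable {K L : Type} [Field K] [NumberField K] [Field L]
  [NumberField L] [Algebra K L] {a b : K} {θ : L} {S : Ext K K L a b θ}
  {Sg : Finset (HeightOneSpectrum (𝓞 K))}

theorem IgZ_card {M : Type} [Field M] (V1 : AddSubgroup (SC M))
    (φ : SC M →+ ZMod 2) {x : SC M} (hx : x ∈ V1) (hφ : φ x = 1) {P Q : SC M → Prop}
    (h1 : ∀ c, P c ↔ c ∈ V1) (h2 : ∀ c, Q c ↔ c ∈ V1 ∧ φ c = 0) :
    Nat.card {c : SC M // P c} = 2 * Nat.card {c : SC M // Q c} := by
  obtain ⟨f, hf⟩ : ∃ f : V1 →+ ZMod 2, f = φ.comp V1.subtype := ⟨_, rfl⟩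
  have hfx : ∀ c : V1, f c = φ c := fun c => by rw [hf]; rfl
  have hsurj : Function.Surjective f := by
    intro t
    have ht : t = 0 ∨ t = 1 := by revert t; decide
    rcases ht with rfl | rfl
    · exact ⟨0, map_zero f⟩
    · exact ⟨⟨x, hx⟩, by rw [hfx]; exact hφ⟩
  have e1 : {c : SC M // P c} ≃ V1 := Equiv.subtypeEquivRight h1
  have e2 : {c : SC M // Q c} ≃ f.ker :=
    { toFun := fun c => ⟨⟨c.1, ((h2 _).1 c.2).1⟩, by
        rw [AddMonoidHom.mem_ker, hfx]; exact ((h2 _).1 c.2).2⟩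
      invFun := fun c => ⟨c.1.1, (h2 _).2 ⟨c.1.2, by
        have := c.2
        rw [AddMonoidHom.mem_ker, hfx] at this
        exact this⟩⟩
      left_inv := fun c => rfl
      right_inv := fun c => rfl }
  rw [Nat.card_congr e1, Nat.card_congr e2]
  have h3 : f.ker.index = 2 := by
    rw [AddSubgroup.index_ker, AddMonoidHom.range_eq_top.2 hsurj]
    rw [Nat.card_congr AddSubgroup.topEquiv.toEquiv, Nat.card_zmod]
  rw [← f.ker.card_mul_index, h3, mul_comm]

theorem IgZ_Y {s0 : K →+* ℝ} (hs : s0 (-(4 * a ^ 3 + 27 * b ^ 2)) < 0)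
    {T : Finset (HeightOneSpectrum (𝓞 K))} {c : SC L} (hc : S.YR s0 Sg T c) : S.Y 1 Sg T c := by
  refine ⟨hc.hh, fun v hv => hc.fin v ?_, fun s => ?_, fun w h1 h2 => hc.ev w ?_ ?_⟩
  · rw [dn_self] at hv
    exact hv
  · by_cases h : s = s0
    · rw [h]
      exact Lr_one S hs one_ne_zero hc.hh
    · exact hc.inf s h
  · rw [dn_self] at h1
    exact h1
  · rw [dn_self] at h2
    exact h2

theorem IgZ_mono {s0 : K →+* ℝ} {T T' : Finset (HeightOneSpectrum (𝓞 K))} (h : T ⊆ T')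
    {c : SC L} (hc : S.YR s0 Sg T c) : S.YR s0 Sg T' c :=
  ⟨hc.hh, hc.fin, hc.inf, fun w h1 h2 => hc.ev w h1 fun h3 => h2 (h h3)⟩

theorem si_ker {N : Type} [Field N] [Algebra K N] {s0 : K →+* ℝ}
    (hs0 : ∃ s' : N →+* ℝ, ∀ x : K, s' (algebraMap K N x) = s0 x) (β : SC K)
    (h : scm (algebraMap K N : K →* N) β = 0) : si s0 β = 0 := by
  obtain ⟨s', hs'⟩ := hs0
  obtain ⟨x, hx, rfl⟩ := H38T1.sc_surj β
  have hxN : algebraMap K N x ≠ 0 := (map_ne_zero _).2 hx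
  rw [H76PP.scm_sc _ hx] at h
  obtain ⟨y, hy⟩ : IsSquare (algebraMap K N x) := (H38T1.sc_eq_zero hxN).1 h
  have h1 : 0 ≤ s0 x := by
    rw [← hs' x, hy, map_mul]
    exact mul_self_nonneg _
  rw [H38T1.si_sc s0 hx]
  unfold H38RT.sw
  rw [if_neg (not_lt.2 h1)]

theorem real_AZ (N : Type) [Field N] [NumberField N] [Algebra K N] [IsGalois K N]
    (hsq : ¬ IsSquare (algebraMap K N (-(4 * a ^ 3 + 27 * b ^ 2)))) (hok : S.Ok 1 Sg) (hcl : ClOk K Sg) {s0 : K →+* ℝ}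
    (hs0 : ∃ s' : N →+* ℝ, ∀ x : K, s' (algebraMap K N x) = s0 x)
    (hs : s0 (-(4 * a ^ 3 + 27 * b ^ 2)) < 0) {x : SC L} (hx : S.V 1 x) (hx0 : x ≠ 0) :
    ∃ (T : Finset (HeightOneSpectrum (𝓞 K))) (δ : K), RayS K Sg T s0 δ ∧ (∀ q ∈ T, q ∈ Zs K N) ∧
      Nat.card {c : SC L // S.V 1 c} = 2 * Nat.card {c : SC L // S.V δ c} := by
  obtain ⟨V1, hVf, hV⟩ := exists_YR S s0 Sg ∅
  have hV1 : ∀ c, S.V 1 c ↔ c ∈ V1 := by
    intro c
    rw [hV, RS_V1 hok s0 c]
    exact ⟨fun h => h.1, fun h => ⟨h, Lr_one S hs one_ne_zero h.hh⟩⟩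
  obtain ⟨φ, hφ⟩ := H76OD.exists_fun hx0
  have hW : ∀ c ∈ V1, c ∈ H30ZO.HH K L := fun c hc => ((hV c).1 hc).hh
  obtain ⟨χ, hχ⟩ : ∃ χ : SC K →+ ZMod 2, ∀ c, χ c = si s0 c :=
    ⟨⟨⟨si s0, H38T1.si_zero s0⟩, H38T1.si_add s0⟩, fun _ => rfl⟩
  have hχ1 : χ (sc (-(4 * a ^ 3 + 27 * b ^ 2))) = 1 := by
    rw [hχ, H38T1.si_sc s0 (neg_ne_zero.2 S.dne)]
    unfold H38RT.sw
    rw [if_pos hs]
  have hB : (H24TD.US K (Sg : Set (HeightOneSpectrum (𝓞 K))) : Set (SC K)).Finite := by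
    have hcard := H88T7.card_US7 (K := K) (S := (Sg : Set (HeightOneSpectrum (𝓞 K))))
      Sg.finite_toSet
    have hf : Finite (H24TD.US K (Sg : Set (HeightOneSpectrum (𝓞 K)))) :=
      Nat.finite_of_card_ne_zero (by rw [hcard]; positivity)
    exact Set.toFinite _
  obtain ⟨P, hPZ, -, hP1, hP2⟩ := exists_spKZ S N hsq Sg ∅ V1 hVf hW φ hB χ hχ1
    (fun β hβ => by rw [hχ]; exact si_ker hs0 β hβ)
  have hxV : x ∈ V1 := (hV1 x).1 hx
  have hel : ∀ c : SC L, (S.el φ c).coeff 1 = φ c := by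
    intro c
    change φ (S.ρ (1 : K ≃ₐ[K] K)⁻¹ • c) = φ c
    rw [inv_one, map_one, one_smul]
  have hfl : ∀ c ∈ V1, P.fl c = 0 ↔ φ c = 0 := by
    intro c hc
    rw [(hP1 c hc).2]
    constructor
    · intro h
      rw [← hel c, h]
      rfl
    · intro h
      refine rg_ext fun g => ?_
      have hg : g = 1 := Subsingleton.elim _ _
      rw [hg, hel c, h]
      rfl
  have hflx : P.fl x ≠ 0 := by
    rw [Ne, hfl x hxV, hφ]
    exact one_ne_zero
  have hflx1 : P.fl x = 1 := (rg_cases (P.fl x)).resolve_left hflx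
  obtain ⟨δ, hδ0, hδ1, hδ2, hδ3, hδ4⟩ := exists_delta (T := {P.q}) hok.two hcl
    (fun q hq => by
      rw [Finset.mem_singleton] at hq
      rw [hq]
      exact P.out)
    (fun s => if s = s0 then 1 else 0) (fun β hβ => by
      rw [Finset.sum_singleton, hP2 β hβ, hχ, Finset.sum_eq_single s0]
      · rw [if_pos rfl, one_mul]
      · intro s _ hne
        rw [if_neg hne, zero_mul]
      · intro h
        exact absurd (Finset.mem_univ _) h)
  have hRay : RayS K Sg (({P} : Finset (Sp S Sg)).image Sp.q) s0 δ := by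
    rw [Finset.image_singleton]
    refine ⟨hδ0, fun q hq => ?_, hδ2, hδ3, ?_, fun s hne => ?_⟩
    · rw [hδ1 q hq]
      exact odd_one
    · have h := hδ4 s0
      rw [if_pos rfl, H38T1.si_sc s0 hδ0] at h
      unfold H38RT.sw at h
      by_contra hcon
      rw [if_neg hcon] at h
      exact zero_ne_one h
    · have h := hδ4 s
      rw [if_neg hne, H38T1.si_sc s hδ0] at h
      unfold H38RT.sw at h
      have h0 : s δ ≠ 0 := (map_ne_zero s).2 hδ0
      by_contra hcon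
      rw [if_pos (lt_of_le_of_ne (not_lt.1 hcon) h0)] at h
      exact one_ne_zero h
  have hT : ∀ P' ∈ ({P} : Finset (Sp S Sg)), ∃ x ∈ H30ZO.HH K L, P'.fl x ≠ 0 := by
    intro P' hP'
    rw [Finset.mem_singleton] at hP'
    rw [hP']
    exact ⟨x, hW x hxV, hflx⟩
  have hxY : S.YR s0 Sg ∅ x := (hV x).1 hxV
  refine ⟨_, δ, hRay, fun q hq => ?_, IgZ_card V1 φ hxV hφ hV1 fun c => ?_⟩
  · rw [Finset.image_singleton, Finset.mem_singleton] at hq
    rw [hq]
    exact hPZ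
  rw [RS_V hok hRay hT]
  constructor
  · rintro ⟨h1, -, h3⟩
    have h3' := h3 P (Finset.mem_singleton_self P)
    have h4 := rec_fin hok {P} (IgZ_Y hs h1)
      (IgZ_Y hs (IgZ_mono (Finset.empty_subset _) hxY))
    rw [Finset.sum_singleton, h3', zero_mul, add_zero, hflx1, mul_one] at h4
    have h5 := (P.tr_zero hok.two h1.hh).1 h4
    have h6 : S.YR s0 Sg ∅ c := by
      refine ⟨h1.hh, h1.fin, h1.inf, fun w hw1 _ => ?_⟩
      by_cases hw : dn K w = P.q
      · refine h5 w ?_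
        rw [dn_self]
        exact hw
      · refine h1.ev w hw1 fun h => hw ?_
        rw [Finset.image_singleton, Finset.mem_singleton] at h
        exact h
    have h7 : c ∈ V1 := (hV c).2 h6
    exact ⟨h7, (hfl c h7).1 h3'⟩
  · rintro ⟨h1, h2⟩
    have h3 := (hV c).1 h1
    refine ⟨IgZ_mono (Finset.empty_subset _) h3, Lr_one S hs hδ0 h3.hh, fun P' hP' => ?_⟩
    rw [Finset.mem_singleton] at hP'
    rw [hP']
    exact (hfl c h1).2 h2

end H88ZC
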