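import Pool.Agent.H88.RE.Ia
import Pool.Agent.H88.RE.If
import Pool.Agent.H88.RE.Ij
import Pool.Agent.H88.RE.Il
import Pool.Agent.H88.RE.Ib
import Pool.Agent.H88.RE.Ic
import Pool.Agent.H88.ZC.Ig

/-!
Project MP_78d38b_OD: a real place where the cubic polynomial has three real roots, with primes split in `N` (version of
Pool/Agent/H88/RE/Ih.lean).
-/

set_option autoImplicit false
set_option linter.unusedSectionVars false
open scoped Classical

open WithZero NumberField IsDedekindDomain H38RT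
open H38T1 (SC sc scu rep eo la si OddP)
open H76PP (Cub LC ev scm dn)
open H88OD
open H26OD (Zs)

namespace H88ZC

variable {K L : Type} [Field K] [NumberField K] [Field L]
  [NumberField L] [Algebra K L] {a b : K} {θ : L} {S : Ext K K L a b θ}
  {Sg : Finset (HeightOneSpectrum (𝓞 K))}

/-- Restriction of a predicate to a subgroup which contains all its elements. -/
private theorem IhZ_card {Y : Type} [AddCommGroup Y] {W : AddSubgroup Y} {Q : Y → Prop} {Z : Set W}
    (h1 : ∀ c, Q c → c ∈ W) (h2 : ∀ x : W, x ∈ Z ↔ Q x.1) :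
    Nat.card {c : Y // Q c} = Nat.card Z :=
  Nat.card_congr ⟨fun c => ⟨⟨c.1, h1 _ c.2⟩, (h2 _).2 c.2⟩, fun x => ⟨x.1.1, (h2 _).1 x.2⟩,
    fun _ => rfl, fun _ => rfl⟩

private theorem IhZ_sw {M : Type} [Field M] (s : M →+* ℝ) {x : M} (hx : x ≠ 0) :
    (H38RT.sw s x = 0 ↔ 0 < s x) ∧ (H38RT.sw s x = 1 ↔ s x < 0) := by
  have h0 : s x ≠ 0 := (map_ne_zero s).2 hx
  unfold H38RT.sw
  by_cases h : s x < 0
  · rw [if_pos h]
    exact ⟨iff_of_false one_ne_zero (not_lt.2 h.le), iff_of_true rfl h⟩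
  · rw [if_neg h]
    exact ⟨iff_of_true rfl (lt_of_le_of_ne (not_lt.1 h) h0.symm), iff_of_false zero_ne_one h⟩

/-- The group has one element. -/
private theorem IhZ_act (S : Ext K K L a b θ) (g : K ≃ₐ[K] K) (c : SC L) : S.ρ g⁻¹ • c = c := by
  rw [Subsingleton.elim g⁻¹ 1, map_one, one_smul]

private theorem IhZ_fl (P : Sp S Sg) (c : SC L) :
    P.fl c = 0 ↔ la P.t1 c + P.nu * eo P.t2 c = 0 := by
  have h2 : ∀ g : K ≃ₐ[K] K, (P.fl c).coeff g = la P.t1 c + P.nu * eo P.t2 c := by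
    intro g
    unfold Sp.fl
    rw [coeff_mk, IhZ_act S g c]
  constructor
  · intro h
    rw [← h2 1, h]
    rfl
  · intro h
    refine rg_ext fun g => ?_
    rw [h2 g, h]
    rfl

private theorem IhZ_tr (P : Sp S Sg) (c : SC L) : P.tr c = 0 ↔ eo P.t2 c = 0 := by
  have h2 : ∀ g : K ≃ₐ[K] K, (P.tr c).coeff g = eo P.t2 c := by
    intro g
    unfold Sp.tr
    rw [coeff_mk, IhZ_act S g c]
  constructor
  · intro h
    rw [← h2 1, h]
    rfl
  · intro h
    refine rg_ext fun g => ?_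
    rw [h2 g, h]
    rfl

private theorem IhZ_el (S : Ext K K L a b θ) {φ : SC L →+ ZMod 2} {c : SC L} (h : φ c = 1) :
    S.el φ c ≠ 0 := by
  intro h0
  have h1 : (S.el φ c).coeff 1 = φ c := by
    unfold Ext.el
    rw [coeff_mk, IhZ_act S 1 c]
  rw [h0, h] at h1
  exact zero_ne_one h1

private theorem IhZ_ev (h2 : ∀ v : HeightOneSpectrum (𝓞 K), v ∉ Sg → v.valuation K 2 = 1)
    (P : Sp S Sg) {c : SC L} (hc : c ∈ H30ZO.HH K L) (h : eo P.t2 c = 0)
    {w : HeightOneSpectrum (𝓞 L)} (hw : dn K w = P.q) : eo w c = 0 := by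
  refine (P.tr_zero h2 hc).1 ((IhZ_tr P c).2 h) w ?_
  rw [dn_self]
  exact hw

private theorem IhZ_YR {s0 : K →+* ℝ} {T T' : Finset (HeightOneSpectrum (𝓞 K))} {c : SC L}
    (h : S.YR s0 Sg T c)
    (h' : ∀ w : HeightOneSpectrum (𝓞 L), dn K w ∉ Sg → dn K w ∉ T' → dn K w ∈ T → eo w c = 0) :
    S.YR s0 Sg T' c :=
  ⟨h.hh, h.fin, h.inf, fun w h1 h2 => by
    by_cases h3 : dn K w ∈ T
    · exact h' w h1 h2 h3
    · exact h.ev w h1 h3⟩

theorem real_BZ (N : Type) [Field N] [NumberField N] [Algebra K N] [IsGalois K N]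
    (hsq : ¬ IsSquare (algebraMap K N (-(4 * a ^ 3 + 27 * b ^ 2)))) (hok : S.Ok 1 Sg)
    (hcl : ClOk K Sg) {s0 : K →+* ℝ}
    (hs0 : ∃ s' : N →+* ℝ, ∀ x : K, s' (algebraMap K N x) = s0 x)
    (hs : 0 < s0 (-(4 * a ^ 3 + 27 * b ^ 2))) {x : SC L} (hx : S.V 1 x) (hx0 : x ≠ 0) :
    ∃ (T : Finset (HeightOneSpectrum (𝓞 K))) (δ : K), RayS K Sg T s0 δ ∧ (∀ q ∈ T, q ∈ Zs K N) ∧
      ∃ m n : ℕ, Nat.card {c : SC L // S.V 1 c} = 2 ^ m ∧ Nat.card {c : SC L // S.V δ c} = 2 ^ n ∧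
        Even (m + n + 1) := by
  have h2 : ∀ v : HeightOneSpectrum (𝓞 K), v ∉ Sg → v.valuation K 2 = 1 := hok.two
  have hcub : Cub K L a b θ := S.cub
  obtain ⟨t1, t2, t3, R⟩ := exists_real3 hcub hs
  -- the Selmer group
  obtain ⟨V1, hV1⟩ := exists_VG S (one_ne_zero (α := K))
  have V1f : Finite V1 :=
    ((fin_V S (one_ne_zero (α := K))).subset fun c hc => (hV1 c).1 hc).to_subtype
  have hVH : ∀ c ∈ V1, c ∈ H30ZO.HH K L := fun c hc => ((hV1 c).1 hc).hh
  -- the functionals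
  have hd0 : -(4 * a ^ 3 + 27 * b ^ 2) ≠ 0 := neg_ne_zero.2 S.dne
  have hdN0 : algebraMap K N (-(4 * a ^ 3 + 27 * b ^ 2)) ≠ 0 := (map_ne_zero _).2 hd0
  have hdne : sc (algebraMap K N (-(4 * a ^ 3 + 27 * b ^ 2))) ≠ 0 :=
    fun h => hsq ((H38T1.sc_eq_zero hdN0).1 h)
  obtain ⟨χN, hχN⟩ := H76OD.exists_fun hdne
  obtain ⟨χ1, hχ1d⟩ : ∃ χ1 : SC K →+ ZMod 2,
      ∀ β, χ1 β = χN (scm (algebraMap K N : K →* N) β) :=
    ⟨χN.comp (scm (algebraMap K N : K →* N)), fun β => rfl⟩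
  have hχ1 : χ1 (sc (-(4 * a ^ 3 + 27 * b ^ 2))) = 1 := by
    rw [hχ1d, H76PP.scm_sc _ hd0]
    exact hχN
  have hχ1N : ∀ β : SC K, scm (algebraMap K N : K →* N) β = 0 → χ1 β = 0 := by
    intro β hβ
    rw [hχ1d, hβ, map_zero]
  obtain ⟨χ2, hχ2⟩ : ∃ χ2 : SC K →+ ZMod 2, ∀ β, χ2 β = si s0 β + χ1 β :=
    ⟨AddMonoidHom.mk' (si s0) (H38T1.si_add s0) + χ1, fun β => rfl⟩
  have hχ2' : χ2 (sc (-(4 * a ^ 3 + 27 * b ^ 2))) = 1 := by
    rw [hχ2, hχ1, H38T1.si_sc s0 hd0, (IhZ_sw s0 hd0).1.2 hs, zero_add]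
  obtain ⟨φ, hφ⟩ := H76OD.exists_fun hx0
  have hB : (H24TD.US K (Sg : Set (HeightOneSpectrum (𝓞 K))) : Set (SC K)).Finite := by
    have : Finite (H24TD.US K (Sg : Set (HeightOneSpectrum (𝓞 K)))) :=
      Nat.finite_of_card_ne_zero (by
        rw [H88T7.card_US7 Sg.finite_toSet]
        positivity)
    exact Set.toFinite _
  have hχ2N : ∀ β : SC K, scm (algebraMap K N : K →* N) β = 0 → χ2 β = 0 := by
    intro β hβ
    rw [hχ2, si_ker hs0 β hβ, hχ1N β hβ, add_zero]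
  obtain ⟨P1, hP1Z, hP1X, hP1V, hP1B⟩ := exists_spKZ S N hsq Sg Sg V1 V1f hVH φ hB χ1 hχ1 hχ1N
  obtain ⟨P2, hP2Z, hP2X, hP2V, hP2B⟩ :=
    exists_spKZ S N hsq Sg (insert P1.q Sg) V1 V1f hVH φ hB χ2 hχ2' hχ2N
  have hxV : x ∈ V1 := (hV1 x).2 hx
  have hfl1 : P1.fl x ≠ 0 := by
    rw [(hP1V x hxV).2]
    exact IhZ_el S hφ
  have hfl2 : P2.fl x ≠ 0 := by
    rw [(hP2V x hxV).2]
    exact IhZ_el S hφ
  have hq12 : P1.q ≠ P2.q := fun h => hP2X (Finset.mem_insert.2 (Or.inl h.symm))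
  have hq2 : P2.q ∉ Sg := fun h => hP2X (Finset.mem_insert_of_mem h)
  have hP12 : P1 ≠ P2 := fun h => hq12 (by rw [h])
  -- the element
  obtain ⟨δ, hδ0, hδT, hδo, hδs, hδr⟩ := exists_delta h2 hcl {P1.q, P2.q} (by
    intro q hq
    rw [Finset.mem_insert, Finset.mem_singleton] at hq
    rcases hq with rfl | rfl
    · exact hP1X
    · exact hq2) (fun s => if s = s0 then 1 else 0) (by
    intro β hβ
    rw [Finset.sum_pair hq12, hP1B β hβ, hP2B β hβ, hχ2]
    simp only [ite_mul, one_mul, zero_mul, Finset.sum_ite_eq', Finset.mem_univ, if_true]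
    rw [add_left_comm, CharTwo.add_self_eq_zero, add_zero])
  have hneg : s0 δ < 0 := by
    have h := hδr s0
    rw [if_pos rfl, H38T1.si_sc s0 hδ0] at h
    exact (IhZ_sw s0 hδ0).2.1 h
  obtain ⟨T0, hT0⟩ : ∃ T0 : Finset (Sp S Sg), T0 = {P1, P2} := ⟨_, rfl⟩
  have hT0i : T0.image Sp.q = {P1.q, P2.q} := by
    rw [hT0, Finset.image_insert, Finset.image_singleton]
  have hRay : RayS K Sg (T0.image Sp.q) s0 δ := by
    rw [hT0i]
    refine ⟨hδ0, fun q hq => ?_, fun u h3 h4 => hδo u h3 h4, hδs, hneg, fun s hs1 => ?_⟩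
    · rw [hδT q hq]
      exact odd_one
    · have h := hδr s
      rw [if_neg hs1, H38T1.si_sc s hδ0] at h
      exact (IhZ_sw s hδ0).1.1 h
  -- special primes for all classes
  have hex : ∀ y : V1, ∃ P : Sp S Sg, (∀ c ∈ V1, P.tr c = 0) ∧ (y.1 ≠ 0 → P.fl y.1 ≠ 0) := by
    intro y
    by_cases hy : y.1 = 0
    · exact ⟨P1, fun c hc => (hP1V c hc).1, fun h => absurd hy h⟩
    · obtain ⟨φy, hφy⟩ := H76OD.exists_fun hy
      obtain ⟨P, -, -, hPV, -⟩ := exists_spKZ S N hsq Sg ∅ V1 V1f hVH φy (B := ∅)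
        Set.finite_empty χ1 hχ1 hχ1N
      refine ⟨P, fun c hc => (hPV c hc).1, fun _ => ?_⟩
      rw [(hPV _ y.2).2]
      exact IhZ_el S hφy
  choose Py hPy1 hPy2 using hex
  have V1ft : Fintype V1 := Fintype.ofFinite V1
  obtain ⟨T, hT⟩ : ∃ T : Finset (Sp S Sg), T = T0 ∪ Finset.univ.image Py := ⟨_, rfl⟩
  have hP1T : P1 ∈ T := by
    rw [hT, hT0]
    exact Finset.mem_union_left _ (Finset.mem_insert_self _ _)
  have hP2T : P2 ∈ T := by
    rw [hT, hT0]
    exact Finset.mem_union_left _ (Finset.mem_insert_of_mem (Finset.mem_singleton_self _))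
  have hPyT : ∀ y, Py y ∈ T := by
    intro y
    rw [hT]
    exact Finset.mem_union_right _ (Finset.mem_image_of_mem _ (Finset.mem_univ y))
  have hTtr : ∀ P ∈ T, ∀ c ∈ V1, P.tr c = 0 := by
    intro P hP c hc
    rw [hT, hT0, Finset.mem_union, Finset.mem_insert, Finset.mem_singleton,
      Finset.mem_image] at hP
    rcases hP with (rfl | rfl) | ⟨y, -, rfl⟩
    · exact (hP1V c hc).1
    · exact (hP2V c hc).1
    · exact hPy1 y c hc
  -- the relaxed group
  obtain ⟨W, hWf, hW⟩ := exists_YR S s0 Sg (T.image Sp.q)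
  have hWH : ∀ c ∈ W, c ∈ H30ZO.HH K L := fun c hc => ((hW c).1 hc).hh
  obtain ⟨r, hr⟩ : ∃ r : Option {P // P ∈ T} → W →+ ZMod 2, (∀ c : W, r none c = si t1 c.1) ∧
      ∀ (P : {P // P ∈ T}) (c : W), r (some P) c = eo P.1.t2 c.1 := by
    refine ⟨fun j => match j with
      | none => AddMonoidHom.mk' (fun c : W => si t1 c.1) fun c c' => H38T1.si_add t1 c.1 c'.1
      | some P => AddMonoidHom.mk' (fun c : W => eo P.1.t2 c.1)
          fun c c' => H38T1.eo_add P.1.t2 c.1 c'.1, fun _ => rfl, fun _ _ => rfl⟩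
  obtain ⟨hr0, hr1⟩ := hr
  obtain ⟨u, hu⟩ : ∃ u : Option {P // P ∈ T} → W →+ ZMod 2, (∀ c : W, u none c = si t3 c.1) ∧
      ∀ (P : {P // P ∈ T}) (c : W), u (some P) c = la P.1.t1 c.1 + P.1.nu * eo P.1.t2 c.1 := by
    refine ⟨fun j => match j with
      | none => AddMonoidHom.mk' (fun c : W => si t3 c.1) fun c c' => H38T1.si_add t3 c.1 c'.1
      | some P => AddMonoidHom.mk' (fun c : W => la P.1.t1 c.1 + P.1.nu * eo P.1.t2 c.1)
          fun c c' => by
            change la P.1.t1 (c.1 + c'.1) + P.1.nu * eo P.1.t2 (c.1 + c'.1) = _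
            rw [H38T1.eo_add, H38T1.la_add (P.1.odd h2).2.1]
            ring, fun _ => rfl, fun _ _ => rfl⟩
  obtain ⟨hu0, hu1⟩ := hu
  -- all conditions of the first kind
  have hV1W : ∀ c : W, (∀ j, r j c = 0) ↔ S.V 1 c.1 := by
    intro c
    have hcY := (hW c.1).1 c.2
    have hone : 0 < s0 (1 : K) := by
      rw [map_one]
      exact one_pos
    constructor
    · intro h
      refine (RS_V1 hok s0 c.1).2 ⟨IhZ_YR hcY fun w h3 _ h5 => ?_, (Lr_pos S R hone hcY.hh).2 ?_⟩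
      · obtain ⟨P, hP, hPw⟩ := Finset.mem_image.1 h5
        exact IhZ_ev h2 P hcY.hh ((hr1 ⟨P, hP⟩ c).symm.trans (h _)) hPw.symm
      · rw [← hr0 c]
        exact h none
    · intro h j
      have hcV : c.1 ∈ V1 := (hV1 _).2 h
      rcases j with - | P
      · rw [hr0]
        exact (Lr_pos S R hone hcY.hh).1 (h.inf s0)
      · rw [hr1]
        exact (IhZ_tr P.1 c.1).1 (hTtr P.1 P.2 _ hcV)
  -- parity
  obtain ⟨A, hA⟩ : ∃ A : Finset (Option {P // P ∈ T}),
      A = {none, some ⟨P1, hP1T⟩, some ⟨P2, hP2T⟩} := ⟨_, rfl⟩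
  have hAc : A.card = 3 := by
    rw [hA]
    refine Finset.card_eq_three.2 ⟨_, _, _, ?_, ?_, ?_, rfl⟩
    · exact (Option.some_ne_none _).symm
    · exact (Option.some_ne_none _).symm
    · intro h
      exact hP12 (congrArg Subtype.val (Option.some.inj h))
  obtain ⟨m, n, hm, hn, hmn⟩ := parity (Y := W) (fun c => by
      rw [← two_nsmul]
      exact Subtype.ext (H38T1.SC.two_smul c.1)) r u
    (fun c => by
      rw [Fintype.sum_option, hr0, hu0]
      have h := rec_real hok R T ((hW c.1).1 c.2)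
      rw [add_comm, ← h]
      congr 1
      rw [← Finset.sum_coe_sort T (fun P => eo P.t2 c.1 * (la P.t1 c.1 + P.nu * eo P.t2 c.1))]
      refine Finset.sum_congr rfl fun P _ => ?_
      rw [hr1, hu1])
    (fun c h3 h4 => by
      have hcV : c.1 ∈ V1 := (hV1 _).2 ((hV1W c).1 h3)
      by_contra hc0
      have hc1 : c.1 ≠ 0 := fun h => hc0 (Subtype.ext h)
      refine hPy2 ⟨c.1, hcV⟩ hc1 ((IhZ_fl _ _).2 ?_)
      exact (hu1 ⟨Py ⟨c.1, hcV⟩, hPyT _⟩ c).symm.trans (h4 _))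
    (by
      rw [Fintype.card_option, Fintype.card_coe]
      exact card_YR hok R T hW) A
  refine ⟨T0.image Sp.q, δ, hRay, fun q hq => ?_, m, n, ?_, ?_, ?_⟩
  · rw [hT0i, Finset.mem_insert, Finset.mem_singleton] at hq
    rcases hq with rfl | rfl
    · exact hP1Z
    · exact hP2Z
  · rw [← hm]
    refine IhZ_card (fun c hc => ?_) fun c => ?_
    · refine (hW c).2 (IhZ_YR ((RS_V1 hok s0 c).1 hc).1 fun w _ _ h5 => ?_)
      exact absurd h5 (Finset.notMem_empty _)
    · rw [← hV1W c]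
      constructor
      · intro h j
        exact h.1 j (Finset.notMem_empty _)
      · intro h
        exact ⟨fun j _ => h j, fun j hj => absurd hj (Finset.notMem_empty _)⟩
  · rw [← hn]
    have hT0x : ∀ P ∈ T0, ∃ x ∈ H30ZO.HH K L, P.fl x ≠ 0 := by
      intro P hP
      rw [hT0, Finset.mem_insert, Finset.mem_singleton] at hP
      rcases hP with rfl | rfl
      · exact ⟨x, hx.hh, hfl1⟩
      · exact ⟨x, hx.hh, hfl2⟩
    have hT0T : T0 ⊆ T := by
      rw [hT]
      exact Finset.subset_union_left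
    have hmemA : ∀ P : {P // P ∈ T}, some P ∈ A ↔ P.1 ∈ T0 := by
      intro P
      rw [hA, hT0, Finset.mem_insert, Finset.mem_insert, Finset.mem_singleton, Finset.mem_insert,
        Finset.mem_singleton]
      constructor
      · rintro (h | h | h)
        · exact absurd h (Option.some_ne_none _)
        · exact Or.inl (congrArg Subtype.val (Option.some.inj h))
        · exact Or.inr (congrArg Subtype.val (Option.some.inj h))
      · rintro (h | h)
        · exact Or.inr (Or.inl (congrArg some (Subtype.ext h)))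
        · exact Or.inr (Or.inr (congrArg some (Subtype.ext h)))
    have hnA : none ∈ A := by
      rw [hA]
      exact Finset.mem_insert_self _ _
    refine IhZ_card (fun c hc => ?_) fun c => ?_
    · refine (hW c).2 (IhZ_YR ((RS_V hok hRay hT0x).1 hc).1 fun w _ h4 h5 => ?_)
      exact absurd (Finset.image_subset_image hT0T h5) h4
    · have hcY := (hW c.1).1 c.2
      rw [RS_V hok hRay hT0x, Lr_neg S R hneg hcY.hh]
      constructor
      · rintro ⟨h3, h4⟩
        refine ⟨IhZ_YR hcY fun w _ h6 h7 => ?_, ?_, fun P hP => ?_⟩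
        · obtain ⟨P, hP, hPw⟩ := Finset.mem_image.1 h7
          refine IhZ_ev h2 P hcY.hh ((hr1 ⟨P, hP⟩ c).symm.trans (h3 _ fun h => h6 ?_)) hPw.symm
          rw [← hPw]
          exact Finset.mem_image_of_mem _ ((hmemA ⟨P, hP⟩).1 h)
        · rw [← hu0 c]
          exact h4 _ hnA
        · refine (IhZ_fl _ _).2 ((hu1 ⟨P, hT0T hP⟩ c).symm.trans (h4 _ ?_))
          exact (hmemA ⟨P, hT0T hP⟩).2 hP
      · rintro ⟨h3, h4, h5⟩
        constructor
        · intro j hj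
          rcases j with - | P
          · exact absurd hnA hj
          · rw [hr1]
            refine h3.ev P.1.t2 ?_ ?_
            · rw [P.1.tw.dn2]
              have h6 := P.1.out
              rwa [dn_self] at h6
            · intro h6
              obtain ⟨P', hP', hq⟩ := Finset.mem_image.1 h6
              refine hj ((hmemA P).2 ?_)
              have h7 : P'.q = P.1.q := by
                rw [hq, P.1.tw.dn2]
                exact (dn_self P.1.v).symm
              rw [← Sp_eq h7]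
              exact hP'
        · intro j hj
          rcases j with - | P
          · rw [hu0]
            exact h4
          · rw [hu1]
            exact (IhZ_fl _ _).1 (h5 P.1 ((hmemA P).1 hj))
  · rw [hAc] at hmn
    have h3 : m + n + 3 = (m + n + 1) + 2 := by ring
    rw [h3] at hmn
    exact (Nat.even_add.1 hmn).2 even_two

end H88ZC
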