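import Pool.Agent.H88.ZC.Ih
import Pool.Agent.H88.OD.Fe
import Pool.Agent.H30.OD.Nb2
import Pool.Agent.H76.SD.Sw

/-!
Project MP_78d38b_OD: a base field with a real place which extends to a real place of `N`.
-/

set_option autoImplicit false
set_option linter.unusedSectionVars false
open scoped Classical

open WithZero NumberField IsDedekindDomain H38RT
open H38T1 (SC sc scu rep eo la si OddP)
open H76PP (Cub LC ev scm dn)
open H88OD
open H26OD (Zs)

namespace H88ZC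

variable {K L : Type} [Field K] [NumberField K] [Field L]
  [NumberField L] [Algebra K L] {a b : K} {θ : L}

/-- A finite set of bad primes. -/
private theorem iiZ_ok (S : Ext K K L a b θ) {D : K} (hD : D ≠ 0)
    (Sg : Finset (HeightOneSpectrum (𝓞 K))) :
    ∃ Sg' : Finset (HeightOneSpectrum (𝓞 K)), Sg ⊆ Sg' ∧ S.Ok D Sg' := by
  have f2 := H38RT.fin_bad (K := K) (x := 2) two_ne_zero
  have fd := H38RT.fin_bad S.dne
  have fD := H38RT.fin_bad hD
  refine ⟨Sg ∪ (f2.toFinset ∪ (fd.toFinset ∪ fD.toFinset)),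
    Finset.subset_union_left, ⟨hD, fun v hv => ?_, fun v hv => ?_, fun v hv => ?_⟩⟩
  all_goals
    simp only [Finset.mem_union, Set.Finite.mem_toFinset, Set.mem_ofPred_eq, not_or, not_not] at hv
  · exact hv.2.1
  · exact hv.2.2.1
  · exact hv.2.2.2

/-- The order of the two-Selmer group is a power of two. -/
private theorem iiZ_card (S : Ext K K L a b θ) {D : K} (hD : D ≠ 0) :
    ∃ m : ℕ, Nat.card {c : SC L // S.V D c} = 2 ^ m := by
  obtain ⟨W, hW⟩ := exists_VG S hD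
  have hfin : (W : Set (SC L)).Finite := (fin_V S hD).subset fun c hc => (hW c).1 hc
  have hfW : Finite W := hfin.to_subtype
  have hmod : ∀ x : W, (2 : ℕ) • x = 0 := by
    intro x
    apply Subtype.ext
    exact H38T1.SC.two_smul _
  have _inst : Module (ZMod 2) W := AddCommGroup.zmodModule hmod
  refine ⟨Module.finrank (ZMod 2) W, ?_⟩
  have h1 : Nat.card W = Nat.card (ZMod 2) ^ Module.finrank (ZMod 2) W :=
    Module.natCard_eq_pow_finrank
  rw [Nat.card_zmod] at h1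
  rw [← h1]
  exact Nat.card_congr (Equiv.subtypeEquivRight fun c => (hW c).symm)

/-- **If `K` has a real place which extends to a real place of `N` then some twist has even two-Selmer rank.** -/
theorem exists_evenN (S : Ext K K L a b θ) (N : Type) [Field N] [NumberField N] [Algebra K N]
    [IsGalois K N] (hsq : ¬ IsSquare (algebraMap K N (-(4 * a ^ 3 + 27 * b ^ 2))))
    {s0 : K →+* ℝ} (hs0 : ∃ s' : N →+* ℝ, ∀ x : K, s' (algebraMap K N x) = s0 x)
    (Sg0 : Finset (HeightOneSpectrum (𝓞 K))) :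
    ∃ δ : K, δ ≠ 0 ∧ (∀ u ∈ Sg0, IsSquare (algebraMap K (u.adicCompletion K) δ)) ∧
      (∀ s : K →+* ℝ, s ≠ s0 → 0 < s δ) ∧
      (∀ u : HeightOneSpectrum (𝓞 K), u ∈ Zs K N ∨
        IsSquare (algebraMap K (u.adicCompletion K) δ) ∨ u.valuation K δ = 1) ∧
      ∃ k : ℕ, Nat.card {c : SC L // S.V δ c} = 4 ^ k := by
  obtain ⟨Sg1, h01, hcl⟩ := exists_cl (K := K) Sg0
  obtain ⟨Sg, h12, hok⟩ := iiZ_ok S (D := 1) one_ne_zero Sg1
  have h02 : Sg0 ⊆ Sg := h01.trans h12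
  have key : ∀ (T : Finset (HeightOneSpectrum (𝓞 K))) (δ : K), RayS K Sg T s0 δ →
      (∀ q ∈ T, q ∈ Zs K N) → δ ≠ 0 ∧
      (∀ u ∈ Sg0, IsSquare (algebraMap K (u.adicCompletion K) δ)) ∧
      (∀ s : K →+* ℝ, s ≠ s0 → 0 < s δ) ∧
      (∀ u : HeightOneSpectrum (𝓞 K), u ∈ Zs K N ∨
        IsSquare (algebraMap K (u.adicCompletion K) δ) ∨ u.valuation K δ = 1) := by
    intro T δ hR hT
    refine ⟨hR.ne, fun u hu => hR.sq u (h02 hu), hR.pos, fun u => ?_⟩
    by_cases h1 : u ∈ T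
    · exact Or.inl (hT u h1)
    · by_cases h2 : u ∈ Sg
      · exact Or.inr (Or.inl (hR.sq u h2))
      · exact Or.inr (Or.inr (hR.out u h1 h2))
  obtain ⟨m, hm⟩ := iiZ_card S (D := 1) one_ne_zero
  rcases Nat.even_or_odd m with he | ho
  · obtain ⟨k, hk⟩ := he
    refine ⟨1, one_ne_zero, fun u _ => ?_, fun s _ => by rw [map_one]; exact one_pos,
      fun u => Or.inr (Or.inr (map_one _)), k, ?_⟩
    · rw [map_one]
      exact ⟨1, (mul_one 1).symm⟩
    · rw [hm, hk, show (4 : ℕ) = 2 ^ 2 by norm_num, ← pow_mul]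
      congr 1
      omega
  · obtain ⟨k, hk⟩ := ho
    have hx : ∃ x : SC L, S.V 1 x ∧ x ≠ 0 := by
      by_contra hcon
      push Not at hcon
      have h1 : Nat.card {c : SC L // S.V 1 c} ≤ 1 := by
        have : Subsingleton {c : SC L // S.V 1 c} := by
          constructor
          intro x y
          apply Subtype.ext
          rw [hcon _ x.2, hcon _ y.2]
        exact Finite.card_le_one_iff_subsingleton.2 this
      rw [hm, hk] at h1
      have h2 : 2 ^ 1 ≤ 2 ^ (2 * k + 1) := Nat.pow_le_pow_right (by norm_num) (by omega)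
      exact absurd (h2.trans h1) (by norm_num)
    obtain ⟨x, hx, hx0⟩ := hx
    have hne : s0 (-(4 * a ^ 3 + 27 * b ^ 2)) ≠ 0 := (map_ne_zero s0).2 (neg_ne_zero.2 S.dne)
    rcases lt_or_gt_of_ne hne with hs | hs
    · obtain ⟨T, δ, hR, hT, h3⟩ := real_AZ N hsq hok (hcl Sg h12) hs0 hs hx hx0
      obtain ⟨k1, k2, k3, k4⟩ := key T δ hR hT
      refine ⟨δ, k1, k2, k3, k4, k, ?_⟩
      rw [hm, hk, pow_succ, pow_mul] at h3
      norm_num at h3
      omega
    · obtain ⟨T, δ, hR, hT, m', n, h3, h4, h5⟩ := real_BZ N hsq hok (hcl Sg h12) hs0 hs hx hx0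
      obtain ⟨k1, k2, k3, k4⟩ := key T δ hR hT
      rw [hm] at h3
      have h6 : m = m' := Nat.pow_right_injective le_rfl h3
      have h7 : Even n := by
        rw [← h6, hk] at h5
        rw [Nat.even_iff] at h5 ⊢
        omega
      obtain ⟨j, hj⟩ := h7
      refine ⟨δ, k1, k2, k3, k4, j, ?_⟩
      rw [h4, hj, show (4 : ℕ) = 2 ^ 2 by norm_num, ← pow_mul]
      congr 1
      omega

/-- Twists by squares. -/
theorem V_sq (S : Ext K K L a b θ) {D t : K} (hD : D ≠ 0) (ht : t ≠ 0) (c : SC L) :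
    S.V (D * t ^ 2) c ↔ S.V D c := by
  have hDt : D * t ^ 2 ≠ 0 := mul_ne_zero hD (pow_ne_zero 2 ht)
  have hsq : ∀ (R : Type) [Field R] (i : K →+* R),
      IsSquare (i (algebraMap K K (D * t ^ 2) / algebraMap K K D)) := by
    intro R _ i
    refine ⟨i t, ?_⟩
    rw [← map_mul]
    congr 1
    change D * t ^ 2 / D = t * t
    field_simp
  have hLv : ∀ (v : HeightOneSpectrum (𝓞 K)), S.Lv (D * t ^ 2) v c ↔ S.Lv D v c := by
    intro v
    rw [H30OD.Lv_iff, H30OD.Lv_iff]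
    exact (H76OD.Wc_tw_iff _ hD hDt (hsq _ _)).symm
  have hLr : ∀ (s : K →+* ℝ), S.Lr (D * t ^ 2) s c ↔ S.Lr D s c := by
    intro s
    rw [H30OD.Lr_iff, H30OD.Lr_iff]
    exact (H76OD.Wc_tw_iff _ hD hDt (hsq _ _)).symm
  exact ⟨fun h => ⟨h.hh, fun v => (hLv v).1 (h.fin v), fun s => (hLr s).1 (h.inf s)⟩,
    fun h => ⟨h.hh, fun v => (hLv v).2 (h.fin v), fun s => (hLr s).2 (h.inf s)⟩⟩

/-- **The real step** for the twist `E_{D0}`. -/
theorem exists_even_tw (S : Ext K K L a b θ) (N : Type) [Field N] [NumberField N] [Algebra K N]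
    [IsGalois K N] (hsq : ¬ IsSquare (algebraMap K N (-(4 * a ^ 3 + 27 * b ^ 2))))
    {s0 : K →+* ℝ} (hs0 : ∃ s' : N →+* ℝ, ∀ x : K, s' (algebraMap K N x) = s0 x) {D0 : K}
    (hD0 : D0 ≠ 0) (Sg0 : Finset (HeightOneSpectrum (𝓞 K))) :
    ∃ δ : K, δ ≠ 0 ∧ (∀ u ∈ Sg0, IsSquare (algebraMap K (u.adicCompletion K) δ)) ∧
      (∀ s : K →+* ℝ, s ≠ s0 → 0 < s δ) ∧
      (∀ u : HeightOneSpectrum (𝓞 K), u ∈ Zs K N ∨
        IsSquare (algebraMap K (u.adicCompletion K) δ) ∨ u.valuation K δ = 1) ∧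
      ∃ k : ℕ, selCard K ((D0 * δ) ^ 2 * a) ((D0 * δ) ^ 3 * b) = 4 ^ k := by
  obtain ⟨E, S', hE0, ⟨t, ht, hEt⟩, -⟩ := H76SD.exists_tw S hD0
  have hsq' : ¬ IsSquare (algebraMap K N (-(4 * (E ^ 2 * a) ^ 3 + 27 * (E ^ 3 * b) ^ 2))) := by
    rintro ⟨r, hr⟩
    apply hsq
    have hEN : algebraMap K N E ≠ 0 := (map_ne_zero _).2 hE0
    refine ⟨r / algebraMap K N E ^ 3, ?_⟩
    have h1 : r / algebraMap K N E ^ 3 * (r / algebraMap K N E ^ 3) =
        r * r / algebraMap K N E ^ 6 := by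
      field_simp
    rw [h1, ← hr]
    have h2 : -(4 * (E ^ 2 * a) ^ 3 + 27 * (E ^ 3 * b) ^ 2) =
        -(4 * a ^ 3 + 27 * b ^ 2) * E ^ 6 := by ring
    rw [h2, map_mul, map_pow]
    field_simp
  obtain ⟨δ, h1, h2, h3, h4, k, hk⟩ := exists_evenN S' N hsq' hs0 Sg0
  refine ⟨δ, h1, h2, h3, h4, k, ?_⟩
  rw [← card_V S (mul_ne_zero hD0 h1), ← hk, card_V S' h1]
  have h5 : δ ^ 2 * (E ^ 2 * a) = (D0 * δ * t ^ 2) ^ 2 * a := by rw [hEt]; ring
  have h6 : δ ^ 3 * (E ^ 3 * b) = (D0 * δ * t ^ 2) ^ 3 * b := by rw [hEt]; ring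
  rw [h5, h6, ← card_V S (mul_ne_zero (mul_ne_zero hD0 h1) (pow_ne_zero 2 ht))]
  exact Nat.card_congr (Equiv.subtypeEquivRight fun c => (V_sq S (mul_ne_zero hD0 h1) ht c).symm)

end H88ZC
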